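import Mathlib
import Pool.Agent.H.MP_3ab43d_mp.Main

namespace Pool.Agent.H.MP_c9a3a4_mp

open Filter Topology Set Pool.Agent.H.MP_3ab43d_mp
open scoped InnerProductSpace

lemma near {X : Type} [NormedAddCommGroup X] [InnerProductSpace ℂ X] [CompleteSpace X]
    (T : X →L[ℂ] X) (hT : IsSelfAdjoint T) (E g : ℝ) (ψ : X)
    (h : ‖T ψ - (E : ℂ) • ψ‖ < g * ‖ψ‖) :
    ∃ c : ℝ, |E - c| ≤ g ∧ ∀ δ > 0, ∃ x : X, ‖T x - (c : ℂ) • x‖ < δ * ‖x‖ := by
  by_contra hc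
  push Not at hc
  have g0 : 0 < g := pos_of_mul_pos_left ((norm_nonneg _).trans_lt h) (norm_nonneg _)
  have far : ∀ c ∈ spectrum ℝ T, g < |c - E| := fun c hs => by
    by_contra hn
    obtain ⟨δ, d0, hd⟩ := hc c (by rw [abs_sub_comm]; exact not_lt.1 hn)
    have u := ContinuousLinearMap.isUnit_of_forall_le_norm_inner_map
      (cfc (fun x => (x - c) * (x - c)) T) (c := ⟨δ ^ 2, by positivity⟩) (pow_pos d0 2) fun x => by
        rw [norm_inner_symm, cfc_sq T (fun x => x - c) (by fun_prop), cfc_lin T hT,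
          Complex.norm_real, Real.norm_of_nonneg (sq_nonneg _)]
        have := pow_le_pow_left₀ (by positivity) (hd x) 2
        rw [mul_pow, mul_comm] at this
        exact this
    exact (isUnit_cfc_iff _ T (by fun_prop) hT).1 u c hs (by simp)
  have ne : ∀ c ∈ spectrum ℝ T, c - E ≠ 0 := fun c hs => abs_pos.1 (g0.trans (far c hs))
  have ct : ContinuousOn (fun x => (x - E)⁻¹) (spectrum ℝ T) := ContinuousOn.inv₀ (by fun_prop) ne
  have a : ‖cfc (fun x => (x - E)⁻¹) T‖ ≤ g⁻¹ := norm_cfc_le (by positivity) fun c hs => by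
    rw [norm_inv]
    exact inv_anti₀ g0 (far c hs).le
  have b : cfc (fun x => (x - E)⁻¹) T * cfc (fun x => x - E) T = 1 := by
    rw [← cfc_mul _ _ T ct, ← cfc_const_one ℝ T]
    exact cfc_congr fun c hs => inv_mul_cancel₀ (ne c hs)
  have c := (cfc (fun x => (x - E)⁻¹) T).le_of_opNorm_le a (cfc (fun x => x - E) T ψ)
  rw [← ContinuousLinearMap.mul_apply, b, cfc_lin T hT, ContinuousLinearMap.one_apply,
    le_inv_mul_iff₀ g0] at c
  linarith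

def Wit (U : ℤ → ℝ) (E δ : ℝ) (ψ φ : L2) (L : ℕ) : Prop :=
  (∀ n, (L : ℤ) < |n| → ψ n = 0) ∧
    (∀ n, φ n = ψ (n + 1) + ψ (n - 1) + ((U n : ℂ) - (E : ℂ)) * ψ n) ∧ ‖φ‖ < δ * ‖ψ‖

def Ap (U : ℤ → ℝ) (E δ : ℝ) : Prop := ∃ ψ φ L, Wit U E δ ψ φ L

lemma Ap.near {U : ℤ → ℝ} {E g : ℝ} (h : Ap U E g) (K : ℝ) (hK : ∀ n, |U n| ≤ K) :
    ∃ c, |E - c| ≤ g ∧ ∀ δ > 0, Ap U c δ := by
  obtain ⟨ψ, φ, L, -, h2, h3⟩ := h
  obtain ⟨T, hT, hH⟩ := exH U K hK
  have e : ∀ (c : ℝ) (x : L2) n, (T x - (c : ℂ) • x : L2) n =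
      x (n + 1) + x (n - 1) + ((U n : ℂ) - (c : ℂ)) * x n := fun c x n => by
    rw [lp.coeFn_sub, Pi.sub_apply, lp.coeFn_smul, Pi.smul_apply, hH, smul_eq_mul]; ring
  obtain ⟨c, c1, c2⟩ := MP_c9a3a4_mp.near T hT E g ψ (by
    rwa [show T ψ - (E : ℂ) • ψ = φ from lp.ext (funext fun n => by rw [e, h2])])
  refine ⟨c, c1, fun δ hδ => ?_⟩
  obtain ⟨x, hx⟩ := c2 δ hδ
  obtain ⟨s, hs⟩ := (Tendsto.eventually (lp.hasSum_single (by norm_num) x)
    ((isOpen_lt (f := fun x : L2 => ‖T x - (c : ℂ) • x‖) (g := fun x : L2 => δ * ‖x‖)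
      (by fun_prop) (by fun_prop)).mem_nhds hx)).exists
  refine ⟨_, _, s.sup Int.natAbs, fun n hn => ?_, e c _, hs⟩
  rw [lp.coeFn_sum, Finset.sum_apply]
  refine Finset.sum_eq_zero fun i hi => lp.single_apply_ne _ _ _ fun h => ?_
  have := Finset.le_sup (f := Int.natAbs) hi
  rw [h, Int.abs_eq_natAbs] at hn
  omega

lemma shift (ψ : L2) (s : ℤ) : ∃ χ : L2, (∀ n, χ n = ψ (n - s)) ∧ ‖χ‖ = ‖ψ‖ := by
  have m : Memℓp (fun n => ψ (n - s)) 2 := (memℓp_gen_iff (by norm_num)).2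
    ((Equiv.subRight s).summable_iff.2 ((memℓp_gen_iff (by norm_num)).1 (lp.memℓp ψ)))
  refine ⟨⟨_, m⟩, fun _ => rfl, ?_⟩
  rw [lp.norm_eq_tsum_rpow (by norm_num), lp.norm_eq_tsum_rpow (by norm_num),
    ← (Equiv.subRight s).tsum_eq fun i => ‖ψ i‖ ^ ENNReal.toReal 2]
  rfl

lemma Wit.move {U U' : ℤ → ℝ} {E E' δ t : ℝ} {ψ φ : L2} {L : ℕ} (h : Wit U E δ ψ φ L) (s : ℤ)
    (ht : ∀ n : ℤ, |n| ≤ L → |U' (n + s) - E' - (U n - E)| ≤ t) : Ap U' E' (δ + t) := by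
  have t0 : 0 ≤ t := (abs_nonneg _).trans (ht 0 (by simp))
  have b : ∀ n, ‖((U' (n + s) - E' - (U n - E) : ℝ) : ℂ) * ψ n‖ ≤ ‖((t : ℂ) • ψ : L2) n‖ := fun n => by
    rw [lp.coeFn_smul, Pi.smul_apply, smul_eq_mul, norm_mul, norm_mul, Complex.norm_real,
      Complex.norm_real, Real.norm_of_nonneg t0]
    by_cases c : |n| ≤ L
    · exact mul_le_mul_of_nonneg_right (ht n c) (norm_nonneg _)
    · simp [h.1 n (not_le.1 c)]
  let χ : L2 := ⟨_, (lp.memℓp _).mono' b⟩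
  have hχ : ∀ n, χ n = ((U' (n + s) - E' - (U n - E) : ℝ) : ℂ) * ψ n := fun _ => rfl
  have n1 : ‖χ‖ ≤ t * ‖ψ‖ := (lp.norm_mono (by norm_num) b).trans (by
    rw [norm_smul, Complex.norm_real, Real.norm_of_nonneg t0])
  obtain ⟨a, a1, a2⟩ := shift ψ s
  obtain ⟨c, c1, c2⟩ := shift (φ + χ) s
  refine ⟨a, c, L + s.natAbs, fun n hn => ?_, fun n => ?_, ?_⟩
  · rw [a1, h.1]
    rw [lt_abs] at hn ⊢
    omega
  · rw [c1, a1, a1, a1, lp.coeFn_add, Pi.add_apply, h.2.1, hχ, sub_add_cancel, add_sub_right_comm,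
      sub_right_comm n 1 s]
    push_cast
    ring
  · rw [c2, a2]
    linarith [norm_add_le φ χ, h.2.2]

lemma Ap.move {U U' : ℤ → ℝ} {E E' δ t : ℝ} (h : Ap U E δ)
    (ht : ∀ n, |U' n - E' - (U n - E)| ≤ t) : Ap U' E' (δ + t) := by
  obtain ⟨ψ, φ, L, w⟩ := h
  exact w.move 0 fun n _ => by simpa using ht n

lemma bdd {U : ℤ → ℝ} {p : ℕ} (hp : 0 < p) (h : Function.Periodic U p) : ∃ K, ∀ n, |U n| ≤ K := by
  refine ⟨∑ i ∈ Finset.Ico (0 : ℤ) p, |U i|, fun n => ?_⟩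
  have := h.int_mul (n / p) (n % p)
  rw [Int.cast_id, Int.emod_add_ediv_mul] at this
  rw [this]
  exact Finset.single_le_sum (f := fun i => |U i|) (fun _ _ => abs_nonneg _)
    (Finset.mem_Ico.2 ⟨Int.emod_nonneg _ (by omega), Int.emod_lt_of_pos _ (by omega)⟩)

lemma step {U : ℤ → ℝ} {p : ℕ} (hp : 0 < p) (h : Function.Periodic U p) {a b g η : ℝ}
    (hg : 0 ≤ g) (hab : a ≤ b) (hη : 0 < η) (q : ℕ) (hU : ∀ E ∈ Icc a b, Ap U E g) :
    ∃ p' : ℕ, 0 < p' ∧ ∃ U' : ℤ → ℝ, Function.Periodic U' p' ∧ (∀ n, |U' n - U n| ≤ g) ∧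
      (∀ E ∈ Icc a b, Ap U' E (η + η)) ∧ ∃ n, U' n - U' (n + (q + 1 : ℕ) * p) = 2 * g := by
  obtain ⟨K, hK⟩ := bdd hp h
  let e : ℕ → ℝ := fun i => min (a + i * η) b
  choose c c1 c2 using fun i => (hU (e i)
    ⟨le_min (le_add_of_nonneg_right (by positivity)) hab, min_le_right _ _⟩).near K hK
  choose ψ φ L w using fun i => c2 i η hη
  obtain ⟨m, hm⟩ : ∃ m, m = ⌊(b - a) / η⌋₊ + 1 := ⟨_, rfl⟩
  obtain ⟨M, M1, M2⟩ : ∃ M : ℕ, q ≤ M ∧ ∀ i < m, L i ≤ M :=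
    ⟨q + (Finset.range m).sup L, by omega, fun i hi =>
      (Finset.le_sup (f := L) (Finset.mem_range.2 hi)).trans (Nat.le_add_left _ _)⟩
  obtain ⟨B, hB⟩ : ∃ B : ℤ, B = (2 * M + 1) * p := ⟨_, rfl⟩
  have p1 : (1 : ℤ) ≤ p := by exact_mod_cast hp
  have B1 : 2 * M + 1 ≤ B := by rw [hB]; exact le_mul_of_one_le_right (by positivity) p1
  let t : ℤ → ℝ := fun i => if i = m then g else if i = m + 1 then -g else e i.toNat - c i.toNat
  let W : ℤ → ℝ := fun n => t ((n + M) / B % (m + 2))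
  have hW : ∀ (i r : ℤ), 0 ≤ i → i < m + 2 → 0 ≤ r → r < B → W (r - M + i * B) = t i := by
    intro i r i0 i1 r0 r1
    simp only [W]
    rw [show r - M + i * B + M = r + i * B by ring, Int.add_mul_ediv_right _ _ (by omega),
      Int.ediv_eq_zero_of_lt r0 r1, zero_add, Int.emod_eq_of_lt i0 i1]
  have hp' : ∀ (j : ℤ) n, U (n + j * p) = U n := fun j n => by simpa using h.int_mul j n
  refine ⟨(m + 2) * ((2 * M + 1) * p), by positivity, fun n => U n + W n, fun n => ?_, fun n => ?_,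
    fun E hE => ?_, B - 1 - M + m * B, ?_⟩
  · push_cast
    simp only [W]
    rw [← mul_assoc, hp', mul_assoc, ← hB, add_right_comm, Int.add_mul_ediv_right _ _ (by omega),
      Int.add_emod_right]
  · simp only [add_sub_cancel_left, W, t]
    split_ifs
    exacts [(abs_of_nonneg hg).le, by rw [abs_neg, abs_of_nonneg hg], c1 _]
  · obtain ⟨i, hi⟩ : ∃ i, i = ⌊(E - a) / η⌋₊ := ⟨_, rfl⟩
    have i1 : i < m := by
      rw [hi, hm]
      exact Nat.lt_succ_of_le (Nat.floor_mono (div_le_div_of_nonneg_right (by linarith [hE.2]) hη.le))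
    have i2 : (i : ℝ) * η ≤ E - a := by
      rw [hi, ← le_div_iff₀ hη]; exact Nat.floor_le (div_nonneg (by linarith [hE.1]) hη.le)
    have i3 : E - a < (i + 1) * η := by rw [hi, ← div_lt_iff₀ hη]; exact Nat.lt_floor_add_one _
    have i4 : e i = a + i * η := min_eq_left (by linarith [hE.2])
    refine (w i).move (i * B) fun n hn => ?_
    have := M2 i i1
    have k := hW i (n + M) (by omega) (by omega) (by linarith [abs_le.1 hn |>.1, show (L i : ℤ) ≤ M by omega])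
      (by linarith [abs_le.1 hn |>.2, show (L i : ℤ) ≤ M by omega])
    rw [add_sub_cancel_right] at k
    rw [k, hB, ← mul_assoc, hp']
    simp only [t]
    rw [if_neg (by omega), if_neg (by omega), Int.toNat_natCast, i4, abs_le]
    constructor <;> linarith
  · have q1 : ((q + 1 : ℕ) : ℤ) * p ≤ B := by rw [hB]; gcongr; omega
    have q2 : 1 ≤ ((q + 1 : ℕ) : ℤ) * p := by have : 0 < ((q + 1 : ℕ) : ℤ) * p := by positivity
                                              omega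
    have k := hW (m + 1) ((q + 1 : ℕ) * p - 1) (by omega) (by omega) (by omega) (by omega)
    rw [show ((q + 1 : ℕ) : ℤ) * p - 1 - M + (m + 1) * B = B - 1 - M + m * B + (q + 1 : ℕ) * p by ring] at k
    simp only
    rw [hp', k, hW m (B - 1) (by omega) (by omega) (by omega) (by omega)]
    simp only [t]
    rw [if_pos trivial, if_neg (by omega), if_pos trivial]
    ring

theorem main {U : ℤ → ℝ} {p : ℕ} (hp : 0 < p) (h : Function.Periodic U p) {ε : ℝ} (hε : 0 < ε) :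
    ∃ V : ℤ → ℝ, (∀ δ : ℝ, 0 < δ → ∃ p : ℕ, 0 < p ∧ ∃ W : ℤ → ℝ, Function.Periodic W p ∧
      ∀ n : ℤ, |V n - W n| < δ) ∧ ¬ (∃ p : ℕ, 0 < p ∧ Function.Periodic V p) ∧
      (∀ n, |V n - U n| ≤ 3 / 2 * ε) ∧ ∃ a b, a < b ∧ ∀ E ∈ Icc a b, ∀ δ > 0, Ap V E δ := by
  obtain ⟨K, hK⟩ := bdd hp h
  obtain ⟨T, -, hT⟩ := exH U K hK
  have n1 : ‖dl 0‖ = 1 := by simp [dl]
  obtain ⟨c, -, hc⟩ := Ap.near (U := U) (E := 0) (g := ‖T (dl 0)‖ + 1) ⟨dl 0, T (dl 0), 0,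
    fun n hn => by rw [dl_apply, if_neg (by rintro rfl; simp at hn)],
    fun n => by simp [hT], by rw [n1]; linarith⟩ K hK
  obtain ⟨f, f0, hf⟩ := dc (S := ℕ × (ℤ → ℝ))
    (fun k s => 0 < s.1 ∧ Function.Periodic s.2 s.1 ∧
      ∀ E ∈ Icc (c - ε / 2) (c + ε / 2), Ap s.2 E (ε * (1 / 3) ^ k))
    (fun k s t => (∀ n, |t.2 n - s.2 n| ≤ ε * (1 / 3) ^ k) ∧
      ∃ n, t.2 n - t.2 (n + (k + 1 : ℕ) * s.1) = 2 * (ε * (1 / 3) ^ k)) (p, U)
    ⟨hp, h, fun E hE => by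
      have := (hc (ε / 2) (by positivity)).move (U' := U) (E' := E) (t := ε / 2) fun n =>
        abs_le.2 ⟨by linarith [hE.2], by linarith [hE.1]⟩
      simpa using this⟩ (by
    rintro k ⟨p, U⟩ ⟨a1, a2, a3⟩
    obtain ⟨p', b1, U', b2, b3, b4, b5⟩ := step a1 a2 (η := ε * (1 / 3) ^ (k + 1) / 2)
      (by positivity) (by linarith) (by positivity) k a3
    exact ⟨(p', U'), ⟨b1, b2, by simpa using b4⟩, b3, b5⟩)
  have s : ∀ n k, dist ((f k).2 n) ((f (k + 1)).2 n) ≤ ε * (1 / 3) ^ k := fun n k => by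
    rw [dist_comm]; exact (hf k).2.1 n
  choose V hV using fun n => cauchySeq_tendsto_of_complete
    (cauchySeq_of_le_geometric (1 / 3) ε (by norm_num) (s n))
  have v : ∀ k n, |V n - (f k).2 n| ≤ 3 / 2 * (ε * (1 / 3) ^ k) := fun k n => by
    have := dist_le_of_le_geometric_of_tendsto (1 / 3) ε (by norm_num) (s n) (hV n) k
    rw [dist_comm, Real.dist_eq] at this
    exact this.trans_eq (by ring)
  have sm : ∀ δ > 0, ∃ k, 3 * (ε * (1 / 3) ^ k) < δ := fun δ hδ => by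
    obtain ⟨k, hk⟩ := exists_pow_lt_of_lt_one (show 0 < δ / (3 * ε) by positivity)
      (show (1 / 3 : ℝ) < 1 by norm_num)
    rw [lt_div_iff₀ (by positivity)] at hk
    exact ⟨k, by linarith⟩
  refine ⟨V, fun δ hδ => ?_, ?_, by simpa [f0] using v 0, c - ε / 2, c + ε / 2, by linarith,
    fun E hE δ hδ => ?_⟩
  · obtain ⟨k, hk⟩ := sm δ hδ
    have : 0 < ε * (1 / 3) ^ k := by positivity
    exact ⟨_, (hf k).1.1, _, (hf k).1.2.1, fun n => by linarith [v k n]⟩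
  · rintro ⟨q, q0, hq⟩
    obtain ⟨k, rfl⟩ : ∃ k, q = k + 1 := ⟨q - 1, by omega⟩
    obtain ⟨n, hn⟩ := (hf k).2.2
    have a := hq.nat_mul (f k).1 n
    have b := abs_le.1 (v (k + 1) n)
    have c := abs_le.1 (v (k + 1) (n + (k + 1 : ℕ) * (f k).1))
    have : 0 < ε * (1 / 3) ^ k := by positivity
    rw [mul_comm] at a
    rw [a] at c
    rw [pow_succ] at b c
    linarith [b.1, c.2]
  · obtain ⟨k, hk⟩ := sm δ hδ
    have : 0 < ε * (1 / 3) ^ k := by positivity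
    have := ((hf k).1.2.2 E hE).move (U' := V) (E' := E) (t := δ - ε * (1 / 3) ^ k) fun n => by
      rw [sub_sub_sub_cancel_right]; linarith [v k n]
    simpa using this

end Pool.Agent.H.MP_c9a3a4_mp
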